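import Pool.Agent.Helper14.A8.L2MFin

/-!
# Block M17 (L2M) of project A8
-/

set_option autoImplicit false

namespace Pool.Agent.A8

open Matrix

section
variable {X M : Type*} [AddCommGroup X] [Module RG X] [AddCommGroup M] [Module RG M]

/-- a lift of an element fixed by `gh` and `gs`, fixed by `gh` and `gs`. -/
theorem l2m_lift (q : X →ₗ[RG] M) (m : M) (hm : ∃ x, q x = m) (h1 : act gh m = m)
    (h2 : act gs m = m) : ∃ x, q x = m ∧ act gh x = x ∧ act gs x = x := by
  obtain ⟨x, hx⟩ := hm
  have hgh : ∀ y : X, act gh (act gs y) = act gs (act gh (act gh (act gh (act gh y)))) := by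
    intro y
    simp only [← act_mul]
    rw [l2m_gh_gs]
  have hgh7 : ∀ y : X, act gh (act gh (act gh (act gh (act gh (act gh (act gh y)))))) = y := by
    intro y
    simp only [← act_mul]
    rw [l2m_gh7, act_one]
  have hgs3 : ∀ y : X, act gs (act gs (act gs y)) = y := by
    intro y
    simp only [← act_mul]
    rw [l2m_gs3, act_one]
  -- the sum over the group of order 7
  let z : X := x + act gh x + act gh (act gh x) + act gh (act gh (act gh x)) +
    act gh (act gh (act gh (act gh x))) + act gh (act gh (act gh (act gh (act gh x)))) +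
    act gh (act gh (act gh (act gh (act gh (act gh x)))))
  have hz : act gh z = z := by
    simp only [z, act_add]
    rw [hgh7 x]
    abel
  have hqz : q z = m := by
    simp only [z, map_add, map_act, hx, h1]
    rw [add_self, zero_add, add_self, zero_add, add_self, zero_add]
  refine ⟨z + act gs z + act gs (act gs z), ?_, ?_, ?_⟩
  · simp only [map_add, map_act, hqz, h2]
    rw [add_self, zero_add]
  · simp only [act_add]
    rw [hgh z, hgh (act gs z), hgh z, hz, hz, hz, hz]
    simp only [hgh z, hz]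
  · simp only [act_add]
    rw [hgs3 z]
    abel

end

section
variable {A : Type*} [AddCommGroup A]

/-- additive maps from `V*` are determined by four values -/
theorem l2m_ext (f g : MD → A) (hf : ∀ x y, f (x + y) = f x + f y)
    (hg : ∀ x y, g (x + y) = g x + g y)
    (h0 : f (![1, 0, 0, 0] : V4) = g (![1, 0, 0, 0] : V4))
    (h1 : f (![0, 1, 0, 0] : V4) = g (![0, 1, 0, 0] : V4))
    (h2 : f (![0, 0, 1, 0] : V4) = g (![0, 0, 1, 0] : V4))
    (h3 : f (![0, 0, 0, 1] : V4) = g (![0, 0, 0, 1] : V4)) (x : MD) : f x = g x := by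
  have key : ∀ (f : MD → A), (∀ x y, f (x + y) = f x + f y) → ∀ x : V4,
      f x = (if x 0 = 0 then 0 else f (![1, 0, 0, 0] : V4)) +
        (if x 1 = 0 then 0 else f (![0, 1, 0, 0] : V4)) +
        (if x 2 = 0 then 0 else f (![0, 0, 1, 0] : V4)) +
        (if x 3 = 0 then 0 else f (![0, 0, 0, 1] : V4)) := by
    intro f hf x
    have hf0 : f 0 = 0 := by
      have := hf 0 0
      rw [add_zero] at this
      exact left_eq_add.1 this
    have hx := l2m_hx x
    have e : ∀ (c : Prop) [Decidable c] (u : V4), f (if c then (0 : V4) else u) =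
        if c then 0 else f u := by
      intro c _ u
      split_ifs
      · exact hf0
      · rfl
    calc f x = f (((if x 0 = 0 then 0 else (![1, 0, 0, 0] : V4)) +
        (if x 1 = 0 then 0 else (![0, 1, 0, 0] : V4)) +
        (if x 2 = 0 then 0 else (![0, 0, 1, 0] : V4)) +
        (if x 3 = 0 then 0 else (![0, 0, 0, 1] : V4)) : V4)) := congrArg f hx
      _ = _ := by
        refine (hf _ _).trans ?_
        refine congrArg₂ _ ?_ (e _ _)
        refine (hf _ _).trans ?_
        refine congrArg₂ _ ?_ (e _ _)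
        refine (hf _ _).trans ?_
        exact congrArg₂ _ (e _ _) (e _ _)
  rw [key f hf x, key g hg x, h0, h1, h2, h3]

end

theorem bL2M : S_L2M := by
  intro X Y _ _ _ _ _ _ qX iX qY iY p hqX hiX hqY hiY hp hp1 hp2
  -- vectors `x` with vanishing `β_x`
  let P : X → Prop := fun x => ∀ y, mlv (p x y) (qX x) = 0
  have hmlv_add : ∀ (l l' : ML) (v : MV), mlv (l + l') v = mlv l v + mlv l' v :=
    fun l l' v => lv_add_left l l' v
  have hPg : ∀ (g : Gam) (x : X), P x → P (act g x) := by
    intro g x hx y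
    have h := hp g x (act g⁻¹ y)
    rw [act_act_inv] at h
    rw [h, map_act, mlv_act, hx, act_zero]
  -- uniqueness
  have huniq : ∀ x x' : X, qX x ≠ 0 → qX x = qX x' → P x → P x' → x = x' := by
    intro x x' h0 h1 h2 h3
    have h4 : qX (x' - x) = 0 := by
      rw [map_sub, h1, sub_self]
    obtain ⟨η, hη⟩ := (hiX _).1 h4
    have h5 : x' = x + iX η := by rw [hη]; abel
    have h6 : ∀ ξ : MD, mlv (mdd η ξ) (qX x) = 0 := by
      intro ξ
      obtain ⟨y, rfl⟩ := hqY ξ
      have e1 := h3 y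
      rw [← h1, h5, map_add, AddMonoidHom.add_apply, hmlv_add, h2 y, zero_add, hp1] at e1
      exact e1
    have h7 : η = 0 := l2m_uniq (qX x) η h0 h6
    rw [h5, h7, map_zero, add_zero]
  -- existence over `e₀`
  have hex0 : ∃ x, qX x = vE0 ∧ P x := by
    obtain ⟨x, hx1, hx2, hx3⟩ := l2m_lift qX vE0 (hqX vE0)
      (by rw [act_MV]; decide +kernel) (by rw [act_MV]; decide +kernel)
    let f : MD → MD := fun ξ => mlv (p x (Function.surjInv hqY ξ)) vE0
    have hf : ∀ y : Y, mlv (p x y) vE0 = f (qY y) := by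
      intro y
      have h1 : qY (y - Function.surjInv hqY (qY y)) = 0 := by
        rw [map_sub, Function.surjInv_eq hqY, sub_self]
      obtain ⟨v, hv⟩ := (hiY _).1 h1
      have h2 : y = Function.surjInv hqY (qY y) + iY v := by rw [hv]; abel
      change mlv (p x y) vE0 = mlv (p x (Function.surjInv hqY (qY y))) vE0
      conv_lhs => rw [h2]
      rw [map_add, hmlv_add, hp2, hx1]
      have h3 : mlv (mvv vE0 v) vE0 = 0 := lv_wdg_self vE0 v
      rw [h3, add_zero]
    have hfadd : ∀ ξ ξ', f (ξ + ξ') = f ξ + f ξ' := by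
      intro ξ ξ'
      obtain ⟨y, rfl⟩ := hqY ξ
      obtain ⟨y', rfl⟩ := hqY ξ'
      rw [← map_add, ← hf, ← hf, ← hf, map_add, hmlv_add]
    have hfg : ∀ (g : Gam), act g x = x → ∀ ξ, f (act g ξ) = act g (f ξ) := by
      intro g hg ξ
      obtain ⟨y, rfl⟩ := hqY ξ
      have h1 := hp g x y
      rw [hg] at h1
      have h2 : act g vE0 = vE0 := by rw [← hx1, ← map_act, hg]
      rw [← map_act, ← hf, h1, ← hf, ← mlv_act, h2]
    have hfe : ∀ ξ, ev (f ξ) vE0 = 0 := fun ξ => ev_lv_self _ _
    -- the values of `f`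
    have hf0 : f (![1, 0, 0, 0] : V4) = 0 := by
      refine l2m_fix0 _ ?_ (hfe _)
      have h1 := hfg gh hx2 (![1, 0, 0, 0] : V4)
      have h2 : @act MD _ _ gh (![1, 0, 0, 0] : V4) = (![1, 0, 0, 0] : V4) := by
        rw [act_MD]
        have : ((gh⁻¹).1ᵀ *ᵥ (![1, 0, 0, 0] : V4)) = ![1, 0, 0, 0] := by decide +kernel
        exact this
      rw [h2, act_MD] at h1
      exact h1.symm
    have hf1 : f (![0, 1, 0, 0] : V4) = 0 ∨ f (![0, 1, 0, 0] : V4) = (![0, 1, 0, 0] : V4) := by
      refine l2m_fix1 _ ?_ (hfe _)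
      have h1 := hfg gs hx3 (![0, 1, 0, 0] : V4)
      have h2 : @act MD _ _ gs (![0, 1, 0, 0] : V4) = (![0, 1, 0, 0] : V4) := by
        rw [act_MD]
        have : ((gs⁻¹).1ᵀ *ᵥ (![0, 1, 0, 0] : V4)) = ![0, 1, 0, 0] := by decide +kernel
        exact this
      rw [h2, act_MD] at h1
      exact h1.symm
    -- `e₂* = gh e₁* + e₁*`, `e₃* = gh e₂*`
    have hf2 : f (![0, 0, 1, 0] : V4) = act gh (f (![0, 1, 0, 0] : V4)) +
        f (![0, 1, 0, 0] : V4) := by
      rw [← hfg gh hx2, ← hfadd]
      congr 1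
      rw [act_MD]
      have : (![0, 0, 1, 0] : V4) = ((gh⁻¹).1ᵀ *ᵥ (![0, 1, 0, 0] : V4)) + ![0, 1, 0, 0] := by
        decide +kernel
      exact this
    have hf3 : f (![0, 0, 0, 1] : V4) = act gh (f (![0, 0, 1, 0] : V4)) := by
      rw [← hfg gh hx2]
      congr 1
      rw [act_MD]
      have : (![0, 0, 0, 1] : V4) = ((gh⁻¹).1ᵀ *ᵥ (![0, 0, 1, 0] : V4)) := by
        decide +kernel
      exact this
    rcases hf1 with h1 | h1
    · -- `β_x = 0`
      refine ⟨x, hx1, fun y => ?_⟩
      rw [hx1, hf]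
      rw [h1, act_zero, add_zero] at hf2
      rw [hf2, act_zero] at hf3
      exact l2m_ext f (fun _ => 0) hfadd (fun _ _ => (add_zero _).symm) hf0 h1 hf2 hf3 _
    · refine ⟨x + iX (![1, 0, 0, 0] : V4), ?_, fun y => ?_⟩
      · rw [map_add, hx1, (hiX _).2 ⟨_, rfl⟩, add_zero]
      · have h2 : qX (iX (![1, 0, 0, 0] : V4)) = 0 := (hiX _).2 ⟨_, rfl⟩
        rw [map_add, map_add, h2, add_zero, hx1, AddMonoidHom.add_apply, hmlv_add, hf, hp1]
        rw [h1] at hf2
        have hf2' : f (![0, 0, 1, 0] : V4) = (![0, 0, 1, 0] : V4) := by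
          rw [hf2, act_MD]
          have : ((gh⁻¹).1ᵀ *ᵥ (![0, 1, 0, 0] : V4)) + ![0, 1, 0, 0] = (![0, 0, 1, 0] : V4) := by
            decide +kernel
          exact this
        have hf3' : f (![0, 0, 0, 1] : V4) = (![0, 0, 0, 1] : V4) := by
          rw [hf3, hf2', act_MD]
          have : ((gh⁻¹).1ᵀ *ᵥ (![0, 0, 1, 0] : V4)) = (![0, 0, 0, 1] : V4) := by
            decide +kernel
          exact this
        have h3 : f (qY y) = mlv (mdd (![1, 0, 0, 0] : V4) (qY y)) vE0 := by
          refine l2m_ext f (fun ξ => mlv (mdd (![1, 0, 0, 0] : V4) ξ) vE0) hfadd ?_ ?_ ?_ ?_ ?_ _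
          · intro ξ ξ'
            have e1 : mdd (![1, 0, 0, 0] : V4) (ξ + ξ') = mdd (![1, 0, 0, 0] : V4) ξ +
                mdd (![1, 0, 0, 0] : V4) ξ' := wdgD_add_right _ _ _
            change mlv (mdd (![1, 0, 0, 0] : V4) (ξ + ξ')) vE0 = _
            rw [e1, hmlv_add]
          · rw [hf0]
            have : (0 : V4) = lv (wdgD (![1, 0, 0, 0] : V4) ![1, 0, 0, 0]) ![1, 0, 0, 0] := by
              decide +kernel
            exact this
          · rw [h1]
            have : (![0, 1, 0, 0] : V4) =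
                lv (wdgD (![1, 0, 0, 0] : V4) ![0, 1, 0, 0]) ![1, 0, 0, 0] := by
              decide +kernel
            exact this
          · rw [hf2']
            have : (![0, 0, 1, 0] : V4) =
                lv (wdgD (![1, 0, 0, 0] : V4) ![0, 0, 1, 0]) ![1, 0, 0, 0] := by
              decide +kernel
            exact this
          · rw [hf3']
            have : (![0, 0, 0, 1] : V4) =
                lv (wdgD (![1, 0, 0, 0] : V4) ![0, 0, 0, 1]) ![1, 0, 0, 0] := by
              decide +kernel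
            exact this
        rw [h3]
        exact add_self _
  -- existence over all nonzero vectors
  have hne01 : (vE0 : MV) ≠ 0 := by
    have : (![1, 0, 0, 0] : V4) ≠ 0 := by decide +kernel
    exact this
  have hex : ∀ v : MV, v ≠ 0 → ∃ x, qX x = v ∧ P x := by
    intro v hv
    obtain ⟨w, hw, hwv⟩ : ∃ w : V4, w ≠ 0 ∧ (v : V4) ≠ w := by
      by_cases h : (v : V4) = ![1, 0, 0, 0]
      · refine ⟨![0, 1, 0, 0], by decide +kernel, ?_⟩
        rw [h]
        decide +kernel
      · exact ⟨![1, 0, 0, 0], by decide +kernel, h⟩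
    obtain ⟨g, hg, -⟩ := l2m_trans v w hv hw hwv
    obtain ⟨x, hx1, hx2⟩ := hex0
    exact ⟨act g x, by rw [map_act, hx1, hg], hPg g x hx2⟩
  have hsx : ∀ v : MV, ∃ x, qX x = v ∧ (v = 0 → x = 0) ∧ (v ≠ 0 → P x) := by
    intro v
    by_cases hv : v = 0
    · exact ⟨0, by rw [map_zero, hv], fun _ => rfl, fun h => absurd hv h⟩
    · obtain ⟨x, hx, hx2⟩ := hex v hv
      exact ⟨x, hx, fun h => absurd h hv, fun _ => hx2⟩
  choose s hs1 hs2 hs3 using hsx
  have hsg : ∀ (g : Gam) (v : MV), s (act g v) = act g (s v) := by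
    intro g v
    by_cases hv : v = 0
    · rw [hv, act_zero, hs2 0 rfl, act_zero]
    · have hgv : act g v ≠ 0 := by
        intro h
        apply hv
        apply act_inj g
        rw [h, act_zero]
      refine huniq _ _ ?_ ?_ (hs3 _ hgv) (hPg g _ (hs3 v hv))
      · rw [hs1]
        exact hgv
      · rw [hs1, map_act, hs1]
  have h01 : s (vE0 + vE1) = s vE0 + s vE1 := by
    have hiXinj : ∀ η : MD, iX η = 0 → η = 0 := by
      intro η hη
      refine l2m_uniq vE0 η hne01 fun ξ => ?_
      obtain ⟨y, rfl⟩ := hqY ξ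
      have h1 := hp1 η y
      rw [hη, map_zero, AddMonoidHom.zero_apply] at h1
      change mlv (mdd η (qY y)) vE0 = 0
      rw [← h1]
      have : lv (0 : V6) ![1, 0, 0, 0] = 0 := by decide +kernel
      exact this
    have h1 : qX (s (vE0 + vE1) + (s vE0 + s vE1)) = 0 := by
      rw [map_add, map_add, hs1, hs1, hs1, add_self]
    obtain ⟨η, hη⟩ := (hiX _).1 h1
    have h2 : act ga (s (vE0 + vE1) + (s vE0 + s vE1)) = s (vE0 + vE1) + (s vE0 + s vE1) := by
      rw [act_add, act_add, ← hsg, ← hsg, ← hsg, act_add, l2m_ga_e0, l2m_ga_e1]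
      have e1 : vE1 + (vE0 + vE1) = vE0 := by
        rw [add_comm vE0 vE1, ← add_assoc, add_self, zero_add]
      rw [e1]
      abel
    have h3 : act ga η = η := by
      have h4 : iX (act ga η - η) = 0 := by
        rw [map_sub, map_act, hη, h2, sub_self]
      exact sub_eq_zero.1 (hiXinj _ h4)
    have h4 : η = 0 := by
      refine l2m_fixa η ?_
      rw [act_MD] at h3
      exact h3
    rw [h4, map_zero] at hη
    have h5 := hη.symm
    rw [← neg_eq (s vE0 + s vE1), ← sub_eq_add_neg] at h5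
    exact sub_eq_zero.1 h5
  have hadd : ∀ v w : MV, s (v + w) = s v + s w := by
    intro v w
    by_cases hv : v = 0
    · rw [hv, hs2 0 rfl, zero_add, zero_add]
    by_cases hw : w = 0
    · rw [hw, hs2 0 rfl, add_zero, add_zero]
    by_cases hvw : v = w
    · rw [hvw, add_self, add_self, hs2 0 rfl]
    obtain ⟨g, hg1, hg2⟩ := l2m_trans v w hv hw hvw
    rw [← hg1, ← hg2, ← act_add, hsg, hsg, hsg, h01, act_add]
  exact ⟨mkLin (AddMonoidHom.mk' s hadd) hsg, hs1⟩

end Pool.Agent.A8
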