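import Pool.Agent.Helper89.A8.Stmts

/-!
# Finite facts for the blocks M17 (L2M), ... of project A8
-/

set_option autoImplicit false

namespace Pool.Agent.A8

open Matrix

/-- the matrix with columns `v, w, e_k, e_l` -/
def l2mMat (v w : V4) (k l : Fin 4) : M4 :=
  Matrix.of fun i j => (![v i, w i, if i = k then 1 else 0, if i = l then 1 else 0] : V4) j

theorem l2m_wdg : ∀ v w : V4, v ≠ 0 → w ≠ 0 → v ≠ w →
    v 0 * w 1 + v 1 * w 0 = 1 ∨ v 0 * w 2 + v 2 * w 0 = 1 ∨ v 0 * w 3 + v 3 * w 0 = 1 ∨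
    v 1 * w 2 + v 2 * w 1 = 1 ∨ v 1 * w 3 + v 3 * w 1 = 1 ∨ v 2 * w 3 + v 3 * w 2 = 1 := by
  decide +kernel

theorem l2m_solve : ∀ a b c d x y : ZMod 2, a * d + c * b = 1 → a * x + b * y = 0 →
    c * x + d * y = 0 → x = 0 ∧ y = 0 := by
  decide

theorem l2m_det (v w : V4) (hv : v ≠ 0) (hw : w ≠ 0) (hvw : v ≠ w) :
    ∃ k l : Fin 4, (l2mMat v w k l).det ≠ 0 := by
  have key : ∀ i j k l : Fin 4, v i * w j + v j * w i = 1 → i ≠ k → i ≠ l → j ≠ k → j ≠ l →
      k ≠ l → (l2mMat v w k l).det ≠ 0 := by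
    intro i j k l h hik hil hjk hjl hkl hdet
    obtain ⟨c, hc, hc2⟩ := Matrix.exists_mulVec_eq_zero_iff.2 hdet
    have hrow : ∀ r : Fin 4, v r * c 0 + w r * c 1 + (if r = k then 1 else 0) * c 2 +
        (if r = l then 1 else 0) * c 3 = 0 := by
      intro r
      have := congrFun hc2 r
      simpa [l2mMat, Matrix.mulVec, dotProduct, Fin.sum_univ_four] using this
    have h1 := hrow i
    have h2 := hrow j
    rw [if_neg hik, if_neg hil, zero_mul, zero_mul, add_zero, add_zero] at h1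
    rw [if_neg hjk, if_neg hjl, zero_mul, zero_mul, add_zero, add_zero] at h2
    obtain ⟨h3, h4⟩ := l2m_solve (v i) (w i) (v j) (w j) (c 0) (c 1) h h1 h2
    have h5 := hrow k
    have h6 := hrow l
    rw [if_pos rfl, if_neg hkl, h3, h4] at h5
    rw [if_pos rfl, if_neg hkl.symm, h3, h4] at h6
    have h7 : c 2 = 0 := by simpa using h5
    have h8 : c 3 = 0 := by simpa using h6
    apply hc
    funext r
    fin_cases r
    · exact h3
    · exact h4
    · exact h7
    · exact h8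
  rcases l2m_wdg v w hv hw hvw with h | h | h | h | h | h
  · exact ⟨2, 3, key 0 1 2 3 h (by decide) (by decide) (by decide) (by decide) (by decide)⟩
  · exact ⟨1, 3, key 0 2 1 3 h (by decide) (by decide) (by decide) (by decide) (by decide)⟩
  · exact ⟨1, 2, key 0 3 1 2 h (by decide) (by decide) (by decide) (by decide) (by decide)⟩
  · exact ⟨0, 3, key 1 2 0 3 h (by decide) (by decide) (by decide) (by decide) (by decide)⟩
  · exact ⟨0, 2, key 1 3 0 2 h (by decide) (by decide) (by decide) (by decide) (by decide)⟩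
  · exact ⟨0, 1, key 2 3 0 1 h (by decide) (by decide) (by decide) (by decide) (by decide)⟩

/-- `GL_4(2)` is transitive on ordered pairs of different nonzero vectors -/
theorem l2m_trans (v w : MV) (hv : v ≠ 0) (hw : w ≠ 0) (hvw : v ≠ w) :
    ∃ g : Gam, act g vE0 = v ∧ act g vE1 = w := by
  obtain ⟨k, l, h⟩ := l2m_det v w hv hw hvw
  refine ⟨Matrix.GeneralLinearGroup.mkOfDetNeZero _ h, ?_, ?_⟩
  · rw [act_MV]
    funext i
    change ((l2mMat v w k l) *ᵥ vE0) i = v i
    simp [l2mMat, vE0, Matrix.mulVec, dotProduct, Fin.sum_univ_four]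
  · rw [act_MV]
    funext i
    change ((l2mMat v w k l) *ᵥ vE1) i = w i
    simp [l2mMat, vE1, Matrix.mulVec, dotProduct, Fin.sum_univ_four]

theorem l2m_uniq (v η : V4) (hv : v ≠ 0) (h : ∀ ξ : V4, lv (wdgD η ξ) v = 0) : η = 0 := by
  obtain ⟨i, hi⟩ : ∃ i, v i ≠ 0 := by
    by_contra hcon
    push Not at hcon
    exact hv (funext hcon)
  have h2 : ∀ a : ZMod 2, a = 0 ∨ a = 1 := by decide
  have hi1 : v i = 1 := (h2 (v i)).resolve_left hi
  have hev : ∀ (j : Fin 4), ev (Pi.single j 1) v = v j := by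
    intro j
    simp [ev]
  have h3 : ∀ j : Fin 4, v j • η + ev η v • (Pi.single j 1 : V4) = 0 := by
    intro j
    have := h (Pi.single j 1)
    rwa [lv_wdgD, hev] at this
  rcases h2 (ev η v) with h4 | h4
  · have := h3 i
    rwa [hi1, h4, one_smul, zero_smul, add_zero] at this
  · exfalso
    have hne : ∀ i : Fin 4, ∃ j : Fin 4, j ≠ i := by decide
    obtain ⟨j, hj⟩ := hne i
    have h5 := h3 i
    rw [hi1, h4, one_smul, one_smul] at h5
    have h6 := congrFun (h3 j) j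
    have h7 := congrFun h5 j
    simp [hj] at h7
    rw [h4] at h6
    simp [h7] at h6

theorem l2m_fix0 : ∀ u : V4, (gh⁻¹).1ᵀ *ᵥ u = u → ev u ![1, 0, 0, 0] = 0 → u = 0 := by
  decide +kernel

theorem l2m_fix1 : ∀ u : V4, (gs⁻¹).1ᵀ *ᵥ u = u → ev u ![1, 0, 0, 0] = 0 →
    u = 0 ∨ u = ![0, 1, 0, 0] := by
  decide +kernel

/-- `ga` has no nonzero fixed vector in the dual module -/
theorem l2m_fixa : ∀ u : V4, (ga⁻¹).1ᵀ *ᵥ u = u → u = 0 := by
  decide +kernel

theorem l2m_hx (x : V4) : x = (if x 0 = 0 then 0 else (![1, 0, 0, 0] : V4)) +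
    (if x 1 = 0 then 0 else (![0, 1, 0, 0] : V4)) +
    (if x 2 = 0 then 0 else (![0, 0, 1, 0] : V4)) +
    (if x 3 = 0 then 0 else (![0, 0, 0, 1] : V4)) := by
  have h2 : ∀ a : ZMod 2, a = 0 ∨ a = 1 := by decide
  funext i
  fin_cases i
  · rcases h2 (x 0) with h | h <;> split_ifs <;> simp_all
  · rcases h2 (x 1) with h | h <;> split_ifs <;> simp_all
  · rcases h2 (x 2) with h | h <;> split_ifs <;> simp_all
  · rcases h2 (x 3) with h | h <;> split_ifs <;> simp_all

theorem l2m_gh_gs : gh * gs = gs * (gh * (gh * (gh * gh))) := by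
  apply Units.ext
  decide +kernel

theorem l2m_gh7 : gh * (gh * (gh * (gh * (gh * (gh * gh))))) = 1 := by
  apply Units.ext
  decide +kernel

theorem l2m_gs3 : gs * (gs * gs) = 1 := by
  apply Units.ext
  decide +kernel

theorem l2m_gh_e0 : act gh vE0 = vE0 := by
  rw [act_MV]
  have : (gh.1 *ᵥ (![1, 0, 0, 0] : V4)) = ![1, 0, 0, 0] := by decide +kernel
  exact this

theorem l2m_gs_e0 : act gs vE0 = vE0 := by
  rw [act_MV]
  have : (gs.1 *ᵥ (![1, 0, 0, 0] : V4)) = ![1, 0, 0, 0] := by decide +kernel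
  exact this

theorem l2m_ga_e0 : act ga vE0 = vE1 := by
  rw [act_MV]
  have : (ga.1 *ᵥ (![1, 0, 0, 0] : V4)) = ![0, 1, 0, 0] := by decide +kernel
  exact this

theorem l2m_ga_e1 : act ga vE1 = vE0 + vE1 := by
  rw [act_MV]
  have : (ga.1 *ᵥ (![0, 1, 0, 0] : V4)) = ![1, 0, 0, 0] + ![0, 1, 0, 0] := by decide +kernel
  exact this

end Pool.Agent.A8
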